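import Pool.Agent.Helper69.QC.St

/-!
# Project QD, module QC CSI : Cauchy-Schwarz on a circle
-/

set_option autoImplicit false

open Complex MeasureTheory Set Filter Topology Metric
open scoped Real ComplexConjugate

namespace Pool.Agent.Helper89.QC

open Pool.Agent.Helper69.QC

private theorem ci_ind (F : ℂ → ℝ) (T : Set ℂ) (hT : MeasurableSet T) (r : ℝ)
    (hc : Continuous fun θ => F (circleMap 0 r θ)) : CircleIntegrable (T.indicator F) 0 r := by
  have hm : MeasurableSet ((circleMap 0 r) ⁻¹' T) := (continuous_circleMap 0 r).measurable hT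
  have h1 : (fun θ => T.indicator F (circleMap 0 r θ)) =
      ((circleMap 0 r) ⁻¹' T).indicator (fun θ => F (circleMap 0 r θ)) := by
    funext θ
    by_cases h : circleMap 0 r θ ∈ T
    · rw [Set.indicator_of_mem h, Set.indicator_of_mem (show θ ∈ (circleMap 0 r) ⁻¹' T from h)]
    · rw [Set.indicator_of_notMem h,
        Set.indicator_of_notMem (show θ ∉ (circleMap 0 r) ⁻¹' T from h)]
  have h2 : IntervalIntegrable (fun θ => T.indicator F (circleMap 0 r θ)) volume 0 (2 * π) := by
    rw [h1]
    have h3 : IntervalIntegrable (fun θ => F (circleMap 0 r θ)) volume 0 (2 * π) :=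
      hc.intervalIntegrable 0 (2 * π)
    exact ⟨h3.1.indicator hm, h3.2.indicator hm⟩
  exact h2

theorem cCSI (rrb : St_RRB) (har : St_HAR) : St_CSI := by
  intro E hE T hT t ht
  obtain ⟨r0, r1, -⟩ := rrb
  have hr0 := r0 t ht
  have hr1 := r1 t
  have hcont := (har E hE).1
  have hin : ∀ θ : ℝ, circleMap 0 (rr t) θ ∈ ball (0 : ℂ) 1 := by
    intro θ
    rw [mem_ball_zero_iff, norm_circleMap_zero, abs_of_nonneg hr0]
    exact hr1
  have hc : Continuous (fun θ => E (circleMap 0 (rr t) θ)) :=
    hcont.comp_continuous (continuous_circleMap 0 (rr t)) hin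
  have hI1 : CircleIntegrable (T.indicator E) 0 (rr t) := ci_ind E T hT _ hc
  have hI2 : CircleIntegrable (T.indicator (fun z => E z ^ 2)) 0 (rr t) :=
    ci_ind (fun z => E z ^ 2) T hT _ (hc.pow 2)
  set A := cm (T.indicator E) t with hA
  have hA' : Real.circleAverage (T.indicator E) 0 (rr t) = A := rfl
  refine Real.le_sqrt_of_sq_le ?_
  have h1 : Real.circleAverage ((2 * A) • T.indicator E - fun _ => A ^ 2) 0 (rr t) = A ^ 2 := by
    rw [Real.circleAverage_sub (hI1.const_smul) (circleIntegrable_const _ _ _),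
      Real.circleAverage_smul, hA', Real.circleAverage_const, smul_eq_mul]
    ring
  rw [← h1]
  refine Real.circleAverage_mono ((hI1.const_smul).sub (circleIntegrable_const _ _ _)) hI2 ?_
  intro x _
  by_cases hx : x ∈ T
  · simp only [Pi.sub_apply, Pi.smul_apply, smul_eq_mul, Set.indicator_of_mem hx]
    nlinarith [sq_nonneg (E x - A)]
  · simp only [Pi.sub_apply, Pi.smul_apply, smul_eq_mul, Set.indicator_of_notMem hx]
    nlinarith [sq_nonneg A]

end Pool.Agent.Helper89.QC
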